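import Pool.Agent.Helper14_UG.Basic

/-!
# Approximations of the complexity from above
-/

namespace Helper14_UG

open Helper49_RK Primrec Filter
open Nat.Partrec (Code)

/-- a code of a machine -/
theorem exists_code {U : List Bool →. List Bool} (h : Partrec U) :
    ∃ c : Code, ∀ i x, Encodable.encode x ∈ c.eval i ↔
      ∃ p : List Bool, Encodable.decode i = some p ∧ x ∈ U p := by
  obtain ⟨c, hc⟩ := Code.exists_code.1 h
  refine ⟨c, fun i x => ?_⟩
  rw [hc]
  simp only [Part.mem_bind_iff, Part.mem_coe, Option.mem_def]
  constructor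
  · rintro ⟨p, hp, hx⟩
    obtain ⟨y, hy, hxy⟩ := (Part.mem_map_iff _).1 hx
    exact ⟨p, hp, by rwa [← Encodable.encode_injective hxy]⟩
  · rintro ⟨p, hp, hx⟩
    exact ⟨p, hp, Part.mem_map _ hx⟩

/-- the length of the string with the number `i` -/
def len (i : ℕ) : ℕ := ((Encodable.decode i : Option (List Bool)).getD []).length

theorem len_encode (p : List Bool) : len (Encodable.encode p) = p.length := by
  simp [len]

/-- the approximation at stage `s` of the complexity -/
def kap (c : Code) (s : ℕ) (x : List Bool) : ℕ :=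
  (List.range s).foldl (fun acc i => if Code.evaln s c i = some (Encodable.encode x) then
    min acc (len i) else acc) s

theorem foldl_min {P : ℕ → Prop} [DecidablePred P] (f : ℕ → ℕ) (L : List ℕ) (a : ℕ) :
    (∀ i ∈ L, P i → L.foldl (fun acc i => if P i then min acc (f i) else acc) a ≤ f i) ∧
    L.foldl (fun acc i => if P i then min acc (f i) else acc) a ≤ a ∧
    (L.foldl (fun acc i => if P i then min acc (f i) else acc) a = a ∨
      ∃ i ∈ L, P i ∧ L.foldl (fun acc i => if P i then min acc (f i) else acc) a = f i) := by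
  induction L generalizing a with
  | nil => simp
  | cons j L ih =>
    rw [List.foldl_cons]
    by_cases hj : P j
    · rw [if_pos hj]
      obtain ⟨h1, h2, h3⟩ := ih (min a (f j))
      refine ⟨?_, h2.trans (min_le_left _ _), ?_⟩
      · intro i hi hPi
        rcases List.mem_cons.1 hi with rfl | hi
        · exact h2.trans (min_le_right _ _)
        · exact h1 i hi hPi
      · rcases h3 with h3 | ⟨i, hi, hPi, h3⟩
        · rcases le_total a (f j) with h | h
          · rw [min_eq_left h] at h3 ⊢
            exact Or.inl h3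
          · rw [min_eq_right h] at h3 ⊢
            exact Or.inr ⟨j, List.mem_cons_self, hj, h3⟩
        · exact Or.inr ⟨i, List.mem_cons_of_mem _ hi, hPi, h3⟩
    · rw [if_neg hj]
      obtain ⟨h1, h2, h3⟩ := ih a
      refine ⟨?_, h2, ?_⟩
      · intro i hi hPi
        rcases List.mem_cons.1 hi with rfl | hi
        · exact absurd hPi hj
        · exact h1 i hi hPi
      · rcases h3 with h3 | ⟨i, hi, hPi, h3⟩
        · exact Or.inl h3
        · exact Or.inr ⟨i, List.mem_cons_of_mem _ hi, hPi, h3⟩

theorem kap_eventually {U : List Bool →. List Bool} {c : Code}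
    (hc : ∀ i x, Encodable.encode x ∈ c.eval i ↔
      ∃ p : List Bool, Encodable.decode i = some p ∧ x ∈ U p) {x : List Bool}
    (hx : comp U x ≠ ⊤) : ∀ᶠ s in atTop, (kap c s x : ℕ∞) = comp U x := by
  obtain ⟨p, hp, hlen⟩ := exists_prog hx
  have h1 : Encodable.encode x ∈ c.eval (Encodable.encode p) :=
    (hc _ _).2 ⟨p, Encodable.encodek p, hp⟩
  obtain ⟨t, ht⟩ := Code.evaln_complete.1 h1
  filter_upwards [eventually_ge_atTop (max t (max (Encodable.encode p + 1) p.length))] with s hs
  have hs1 : t ≤ s := (le_max_left _ _).trans hs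
  have hs2 : Encodable.encode p + 1 ≤ s :=
    (le_max_left _ _).trans ((le_max_right _ _).trans hs)
  have hs3 : p.length ≤ s := (le_max_right _ _).trans ((le_max_right _ _).trans hs)
  have ht' : Code.evaln s c (Encodable.encode p) = some (Encodable.encode x) :=
    Code.evaln_mono hs1 ht
  obtain ⟨a1, a2, a3⟩ := foldl_min
    (P := fun i => Code.evaln s c i = some (Encodable.encode x)) len (List.range s) s
  rw [hlen]
  have hle : kap c s x ≤ p.length := by
    have h2 := a1 (Encodable.encode p) (List.mem_range.2 (by omega)) ht'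
    rw [len_encode] at h2
    exact h2
  have hge : p.length ≤ kap c s x := by
    rcases a3 with h3 | ⟨i, -, hi, h3⟩
    · have h4 : kap c s x = s := h3
      rw [h4]
      exact hs3
    · have h4 : kap c s x = len i := h3
      rw [h4]
      obtain ⟨q, hq, hxq⟩ := (hc i x).1 (Code.evaln_sound hi)
      have h5 : len i = q.length := by simp [len, hq]
      rw [h5]
      have h6 := comp_le hxq
      rw [hlen] at h6
      exact_mod_cast h6
  exact_mod_cast le_antisymm hle hge

theorem lenP : Primrec len :=
  list_length.comp (option_getD.comp Primrec.decode (Primrec.const []))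

theorem kapP (c : Code) : Primrec₂ (kap c) := by
  have h1 : PrimrecPred fun q : (ℕ × List Bool) × (ℕ × ℕ) =>
      Code.evaln q.1.1 c q.2.2 = some (Encodable.encode q.1.2) := by
    have a2 : Primrec fun q : (ℕ × List Bool) × (ℕ × ℕ) => Code.evaln q.1.1 c q.2.2 :=
      Code.primrec_evaln.comp (((fst.comp fst).pair (Primrec.const c)).pair (snd.comp snd))
    have a3 : Primrec fun q : (ℕ × List Bool) × (ℕ × ℕ) => some (Encodable.encode q.1.2) :=
      option_some.comp (Primrec.encode.comp (snd.comp fst))
    exact Primrec.eq.comp a2 a3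
  have h2 : Primrec₂ fun (q : ℕ × List Bool) (r : ℕ × ℕ) =>
      if Code.evaln q.1 c r.2 = some (Encodable.encode q.2) then min r.1 (len r.2) else r.1 :=
    Primrec.ite h1 (nat_min.comp (fst.comp snd) (lenP.comp (snd.comp snd))) (fst.comp snd)
  exact list_foldl (list_range.comp fst) fst h2

theorem kap_cast {U : List Bool →. List Bool} {c : Code}
    (hc : ∀ i x, Encodable.encode x ∈ c.eval i ↔
      ∃ p : List Bool, Encodable.decode i = some p ∧ x ∈ U p)
    (hU : ∀ x, comp U x ≠ ⊤) (n : ℕ) : ∀ᶠ s in atTop, ∀ x : List Bool, x.length ≤ n →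
      (kap c s x : ℕ∞) = comp U x := by
  have h1 : ({x : List Bool | x.length ≤ n}).Finite := List.finite_length_le Bool n
  exact (h1.eventually_all (l := atTop) (p := fun x s => (kap c s x : ℕ∞) = comp U x)).2
    fun x _ => kap_eventually hc (hU x)

end Helper14_UG
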