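import Pool.Agent.Helper14_UG.Approx

/-!
# Strings without a good partner, and a limit computable real which meets all of them
-/

namespace Helper14_UG

open Helper49_RK Primrec Filter
open Nat.Partrec (Code)

/-- no string of the same length is a good partner of `σ` -/
def Bad (u v : List Bool → ℕ) (c d : ℕ) (σ : List Bool) : Prop :=
  ∀ τ : List Bool, τ.length = σ.length → ∃ m ≤ σ.length,
    ¬ (u (σ.take m) ≤ u (τ.take m) + c ∧ m ≤ v (τ.take m) + d)

/-- a primitive recursive approximation which is eventually correct -/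
def Lim (k : ℕ → List Bool → ℕ) (u : List Bool → ℕ) : Prop :=
  Primrec₂ k ∧ ∀ n, ∀ᶠ s in atTop, ∀ x : List Bool, x.length ≤ n → k s x = u x

/-- the approximation of `Bad` -/
def BadS (k l : ℕ → List Bool → ℕ) (c d s : ℕ) (σ : List Bool) : Prop :=
  ∀ τ ∈ strs σ.length, ∃ m < σ.length + 1,
    ¬ (k s (σ.take m) ≤ k s (τ.take m) + c ∧ m ≤ l s (τ.take m) + d)

theorem badS_iff {k l : ℕ → List Bool → ℕ} {u v : List Bool → ℕ} (hk : Lim k u) (hl : Lim l v)
    (c d : ℕ) (σ : List Bool) : ∀ᶠ s in atTop, (BadS k l c d s σ ↔ Bad u v c d σ) := by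
  filter_upwards [hk.2 σ.length, hl.2 σ.length] with s h1 h2
  have h3 : ∀ x : List Bool, x.length = σ.length → ∀ m, k s (x.take m) = u (x.take m) ∧
      l s (x.take m) = v (x.take m) := by
    intro x hx m
    have h4 : (x.take m).length ≤ σ.length := by
      rw [List.length_take, hx]
      exact min_le_right _ _
    exact ⟨h1 _ h4, h2 _ h4⟩
  unfold BadS Bad
  constructor
  · intro h τ hτ
    obtain ⟨m, hm, hn⟩ := h τ (mem_strs.2 hτ)
    refine ⟨m, by omega, ?_⟩
    rwa [(h3 σ rfl m).1, (h3 τ hτ m).1, (h3 τ hτ m).2] at hn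
  · intro h τ hτ
    have hτ' := mem_strs.1 hτ
    obtain ⟨m, hm, hn⟩ := h τ hτ'
    refine ⟨m, by omega, ?_⟩
    rwa [(h3 σ rfl m).1, (h3 τ hτ' m).1, (h3 τ hτ' m).2]

theorem strsP : Primrec strs := list_map (list_range.comp (pow2P Primrec.id)) toStrP

theorem badSP {k l : ℕ → List Bool → ℕ} (hk : Primrec₂ k) (hl : Primrec₂ l) :
    PrimrecPred fun q : (ℕ × ℕ) × (ℕ × List Bool) => BadS k l q.1.1 q.1.2 q.2.1 q.2.2 := by
  -- the variables: `y.1 = m`, `y.2.1 = τ`, `y.2.2 = q`
  have ym : Primrec fun y : ℕ × (List Bool × ((ℕ × ℕ) × (ℕ × List Bool))) => y.1 := fst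
  have yτ : Primrec fun y : ℕ × (List Bool × ((ℕ × ℕ) × (ℕ × List Bool))) => y.2.1 :=
    fst.comp snd
  have yc : Primrec fun y : ℕ × (List Bool × ((ℕ × ℕ) × (ℕ × List Bool))) => y.2.2.1.1 :=
    fst.comp (fst.comp (snd.comp snd))
  have yd : Primrec fun y : ℕ × (List Bool × ((ℕ × ℕ) × (ℕ × List Bool))) => y.2.2.1.2 :=
    snd.comp (fst.comp (snd.comp snd))
  have ys : Primrec fun y : ℕ × (List Bool × ((ℕ × ℕ) × (ℕ × List Bool))) => y.2.2.2.1 :=
    fst.comp (snd.comp (snd.comp snd))
  have yσ : Primrec fun y : ℕ × (List Bool × ((ℕ × ℕ) × (ℕ × List Bool))) => y.2.2.2.2 :=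
    snd.comp (snd.comp (snd.comp snd))
  have t1 := hk.comp ys (list_take.comp ym yσ)
  have t2 := hk.comp ys (list_take.comp ym yτ)
  have t3 := hl.comp ys (list_take.comp ym yτ)
  have h1 : PrimrecRel fun (m : ℕ) (z : List Bool × ((ℕ × ℕ) × (ℕ × List Bool))) =>
      ¬ (k z.2.2.1 (z.2.2.2.take m) ≤ k z.2.2.1 (z.1.take m) + z.2.1.1 ∧
        m ≤ l z.2.2.1 (z.1.take m) + z.2.1.2) := by
    refine PrimrecPred.not (PrimrecPred.and ?_ ?_)
    · exact nat_le.comp t1 (nat_add.comp t2 yc)
    · exact nat_le.comp ym (nat_add.comp t3 yd)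
  have h2 : PrimrecRel fun (τ : List Bool) (q : (ℕ × ℕ) × (ℕ × List Bool)) =>
      ∃ m < q.2.2.length + 1, ¬ (k q.2.1 (q.2.2.take m) ≤ k q.2.1 (τ.take m) + q.1.1 ∧
        m ≤ l q.2.1 (τ.take m) + q.1.2) := by
    have h3 := bexN h1 (f := fun z : List Bool × ((ℕ × ℕ) × (ℕ × List Bool)) =>
      z.2.2.2.length + 1) (succ.comp (list_length.comp (snd.comp (snd.comp snd))))
    exact h3
  exact ballL h2 (f := fun q : (ℕ × ℕ) × (ℕ × List Bool) => strs q.2.2.length)
    (strsP.comp (list_length.comp (snd.comp snd)))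

/-- extensions of bad strings are bad -/
theorem Bad.append {u v : List Bool → ℕ} {c d : ℕ} {σ : List Bool} (h : Bad u v c d σ)
    (y : List Bool) : Bad u v c d (σ ++ y) := by
  intro τ hτ
  rw [List.length_append] at hτ
  obtain ⟨m, hm, hn⟩ := h (τ.take σ.length) (by rw [List.length_take]; omega)
  refine ⟨m, by rw [List.length_append]; omega, ?_⟩
  rw [List.take_append_of_le_length hm]
  rwa [List.take_take, min_eq_left hm] at hn

theorem Bad.mono {u v : List Bool → ℕ} {c d c' d' : ℕ} {σ : List Bool} (h : Bad u v c d σ)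
    (hc : c' ≤ c) (hd : d' ≤ d) : Bad u v c' d' σ := by
  intro τ hτ
  obtain ⟨m, hm, hn⟩ := h τ hτ
  refine ⟨m, hm, fun hn' => hn ⟨?_, ?_⟩⟩
  · omega
  · omega

/-- the properties of the complexity which are used -/
structure Reg (u : List Bool → ℕ) : Prop where
  drop : ∀ k, ∃ a, ∀ x : List Bool, u (x.drop k) ≤ u x + a
  app : ∃ B, ∀ y x : List Bool, u (x ++ y) ≤ u x + y.length * B
  lim : ∃ k, Lim k u

theorem dense_bad {u v : List Bool → ℕ} (hu : Reg u) (h : ∀ c d, ∃ σ, Bad u v c d σ)
    (ρ : List Bool) (c d L : ℕ) :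
    ∃ σ : List Bool, σ.take ρ.length = ρ ∧ L < σ.length ∧ Bad u v c d σ := by
  obtain ⟨a, ha⟩ := hu.drop ρ.length
  obtain ⟨B, hB⟩ := hu.app
  obtain ⟨σ, hσ⟩ := h (c + a + ρ.length * B) d
  have hbad : Bad u v c d (ρ ++ σ) := by
    by_contra hn
    unfold Bad at hn
    push Not at hn
    obtain ⟨τ, hτ, hgood⟩ := hn
    rw [List.length_append] at hτ hgood
    obtain ⟨m, hm, hm'⟩ := hσ (τ.take σ.length) (by rw [List.length_take]; omega)
    apply hm'
    rw [List.take_take, min_eq_left hm]
    obtain ⟨g1, g2⟩ := hgood (m + ρ.length) (by omega)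
    obtain ⟨g3, g4⟩ := hgood m (by omega)
    refine ⟨?_, g4⟩
    have h1 : σ.take m = ((ρ ++ σ).take (m + ρ.length)).drop ρ.length := by
      rw [List.drop_take, List.drop_left, Nat.add_sub_cancel]
    have h2 : τ.take (m + ρ.length) = τ.take m ++ (τ.drop m).take ρ.length := by
      rw [List.take_add]
    have h3 : ((τ.drop m).take ρ.length).length = ρ.length := by
      rw [List.length_take, List.length_drop]
      omega
    have h4 := ha ((ρ ++ σ).take (m + ρ.length))
    rw [← h1] at h4
    have h5 := hB ((τ.drop m).take ρ.length) (τ.take m)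
    rw [← h2, h3] at h5
    omega
  refine ⟨(ρ ++ σ) ++ List.replicate (L + 1) false, ?_, ?_, hbad.append _⟩
  · rw [List.append_assoc, List.take_left]
  · simp only [List.length_append, List.length_replicate]
    omega

/-- the string with the number `i` -/
def dec (i : ℕ) : List Bool := (Encodable.decode i : Option (List Bool)).getD []

theorem dec_encode (p : List Bool) : dec (Encodable.encode p) = p := by simp [dec]

/-- condition for the next string -/
def Nx (k l : ℕ → List Bool → ℕ) (i : ℕ) (q : ℕ × ℕ × List Bool) : Prop :=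
  (dec i).take q.2.2.length = q.2.2 ∧ q.1 < (dec i).length ∧ BadS k l q.1 q.1 q.2.1 (dec i)

theorem nxP {k l : ℕ → List Bool → ℕ} (hk : Primrec₂ k) (hl : Primrec₂ l) :
    PrimrecRel (Nx k l) := by
  have hd : Primrec dec := option_getD.comp Primrec.decode (Primrec.const [])
  have yi : Primrec fun y : ℕ × (ℕ × ℕ × List Bool) => dec y.1 := hd.comp fst
  have ye : Primrec fun y : ℕ × (ℕ × ℕ × List Bool) => y.2.1 := fst.comp snd
  have ys : Primrec fun y : ℕ × (ℕ × ℕ × List Bool) => y.2.2.1 := fst.comp (snd.comp snd)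
  have yr : Primrec fun y : ℕ × (ℕ × ℕ × List Bool) => y.2.2.2 := snd.comp (snd.comp snd)
  refine PrimrecPred.and ?_ (PrimrecPred.and ?_ ?_)
  · exact Primrec.eq.comp (list_take.comp (list_length.comp yr) yi) yr
  · exact nat_lt.comp ye (list_length.comp yi)
  · exact (badSP hk hl).comp ((ye.pair ye).pair (ys.pair yi))

open Classical in
/-- the next string at stage `s` -/
noncomputable def nxt (k l : ℕ → List Bool → ℕ) (q : ℕ × ℕ × List Bool) : List Bool :=
  ((((List.range q.2.1).filter fun i => Nx k l i q).head?).map dec).getD q.2.2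

theorem nxtP {k l : ℕ → List Bool → ℕ} (hk : Primrec₂ k) (hl : Primrec₂ l) :
    Primrec (nxt k l) := by
  classical
  have hd : Primrec dec := option_getD.comp Primrec.decode (Primrec.const [])
  have h1 : Primrec fun q : ℕ × ℕ × List Bool =>
      (List.range q.2.1).filter fun i => Nx k l i q :=
    (nxP hk hl).listFilter.comp (list_range.comp (fst.comp snd)) Primrec.id
  have h2 : Primrec fun q : ℕ × ℕ × List Bool =>
      (((List.range q.2.1).filter fun i => Nx k l i q).head?).map dec :=
    option_map (list_head?.comp h1) (hd.comp snd)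
  exact option_getD.comp h2 (snd.comp snd)

/-- the string at step `e` and stage `s` -/
noncomputable def rho (k l : ℕ → List Bool → ℕ) (e s : ℕ) : List Bool :=
  Nat.rec [] (fun e' r => nxt k l (e', s, r)) e

theorem rho_succ (k l : ℕ → List Bool → ℕ) (e s : ℕ) :
    rho k l (e + 1) s = nxt k l (e, s, rho k l e s) := rfl

theorem rhoP {k l : ℕ → List Bool → ℕ} (hk : Primrec₂ k) (hl : Primrec₂ l) :
    Primrec₂ (rho k l) := by
  have h1 : Primrec₂ fun (q : ℕ × ℕ) (p : ℕ × List Bool) => nxt k l (p.1, q.2, p.2) :=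
    (nxtP hk hl).comp ((fst.comp snd).pair ((snd.comp fst).pair (snd.comp snd)))
  exact nat_rec' fst (Primrec.const []) h1

theorem exists_limitComputable {u v : List Bool → ℕ} (hu : Reg u) (hv : ∃ l, Lim l v)
    (h : ∀ c d, ∃ σ, Bad u v c d σ) :
    ∃ A : ℕ → Bool, LimitComputable A ∧ ∀ e, ∃ n, Bad u v e e (seg A n) := by
  classical
  obtain ⟨k, hk⟩ := hu.lim
  obtain ⟨l, hl⟩ := hv
  -- the true condition
  let T : ℕ → ℕ → List Bool → Prop := fun e i r =>
    (dec i).take r.length = r ∧ e < (dec i).length ∧ Bad u v e e (dec i)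
  have hT : ∀ e r, ∃ i, T e i r := by
    intro e r
    obtain ⟨σ, h1, h2, h3⟩ := dense_bad hu h r e e e
    refine ⟨Encodable.encode σ, ?_⟩
    simp only [T, dec_encode]
    exact ⟨h1, h2, h3⟩
  have hmin : ∀ e r, ∃ i, T e i r ∧ ∀ j < i, ¬ T e j r := by
    intro e r
    exact ⟨Nat.find (hT e r), Nat.find_spec (hT e r), fun j hj => Nat.find_min (hT e r) hj⟩
  choose I hI1 hI2 using hmin
  let R : ℕ → List Bool := fun e => Nat.rec [] (fun e' r => dec (I e' r)) e
  have hR : ∀ e, R (e + 1) = dec (I e (R e)) := fun e => rfl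
  have hRT : ∀ e, T e (I e (R e)) (R e) := fun e => hI1 e (R e)
  have hlen : ∀ e, e < (R (e + 1)).length := fun e => by rw [hR]; exact (hRT e).2.1
  have htake : ∀ e, (R (e + 1)).take (R e).length = R e := fun e => by rw [hR]; exact (hRT e).1
  have hbad : ∀ e, Bad u v e e (R (e + 1)) := fun e => by rw [hR]; exact (hRT e).2.2
  -- convergence
  have hconv : ∀ e, ∀ᶠ s in atTop, rho k l e s = R e := by
    intro e
    induction e with
    | zero => exact Eventually.of_forall fun s => rfl
    | succ e ih =>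
      have h1 : ∀ᶠ s in atTop, ∀ i ∈ Set.Iic (I e (R e)),
          (BadS k l e e s (dec i) ↔ Bad u v e e (dec i)) :=
        ((Set.finite_Iic _).eventually_all (l := atTop)
          (p := fun i s => (BadS k l e e s (dec i) ↔ Bad u v e e (dec i)))).2
          fun i _ => badS_iff hk hl e e (dec i)
      filter_upwards [ih, h1, eventually_gt_atTop (I e (R e))] with s h2 h3 h4
      rw [rho_succ, h2, hR]
      unfold nxt
      have h5 : ((List.range s).filter fun i => Nx k l i (e, s, R e)).head? =
          some (I e (R e)) := by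
        rw [List.head?_filter, List.find?_range_eq_some]
        refine ⟨?_, List.mem_range.2 h4, ?_⟩
        · rw [decide_eq_true_eq]
          obtain ⟨a1, a2, a3⟩ := hRT e
          exact ⟨a1, a2, (h3 _ (Set.mem_Iic.2 le_rfl)).2 a3⟩
        · intro j hj
          rw [Bool.not_eq_true', decide_eq_false_iff_not]
          rintro ⟨a1, a2, a3⟩
          exact hI2 e (R e) j hj ⟨a1, a2, (h3 _ (Set.mem_Iic.2 hj.le)).1 a3⟩
      simp only [h5, Option.map_some, Option.getD_some]
  -- the real
  have hcoh : ∀ e e', e ≤ e' → (R e').take (R e).length = R e := by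
    intro e e' hee
    induction hee with
    | refl => exact List.take_length
    | @step e' hee ih =>
      have h1 : (R e).length ≤ (R e').length := by
        have h2 := congrArg List.length ih
        rw [List.length_take] at h2
        omega
      have h2 := htake e'
      calc (R (e' + 1)).take (R e).length
          = ((R (e' + 1)).take (R e').length).take (R e).length := by
            rw [List.take_take, min_eq_left h1]
        _ = (R e').take (R e).length := by rw [h2]
        _ = R e := ih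
  let A : ℕ → Bool := fun n => (R (n + 1)).getD n false
  have hA : ∀ e n, n < (R e).length → A n = (R e).getD n false := by
    intro e n hn
    have hn' := hlen n
    rcases le_total e (n + 1) with hle | hle
    · have h1 := hcoh e (n + 1) hle
      simp only [A]
      conv_rhs => rw [← h1]
      simp only [List.getD_eq_getElem?_getD, List.getElem?_take, if_pos hn]
    · have h1 := hcoh (n + 1) e hle
      simp only [A]
      conv_lhs => rw [← h1]
      simp only [List.getD_eq_getElem?_getD, List.getElem?_take, if_pos hn']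
  have hseg : ∀ e, seg A (R e).length = R e := by
    intro e
    conv_rhs => rw [← seg_ext (R e)]
    unfold seg
    refine List.map_congr_left fun n hn => ?_
    exact hA e n (List.mem_range.1 hn)
  refine ⟨A, ⟨fun n s => (rho k l (n + 1) s).getD n false, ?_, ?_⟩, ?_⟩
  · have h1 : Primrec₂ fun (n s : ℕ) => (rho k l (n + 1) s).getD n false :=
      (list_getD false).comp ((rhoP hk.1 hl.1).comp (succ.comp fst) snd) fst
    exact h1.to_comp
  · intro n
    obtain ⟨s, hs⟩ := eventually_atTop.1 (hconv (n + 1))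
    exact ⟨s, fun t ht => by simp only [hs t ht, A]⟩
  · intro e
    refine ⟨(R (e + 1)).length, ?_⟩
    have h1 := hseg (e + 1)
    have h2 := hbad e
    generalize hx : R (e + 1) = x at h1 h2 ⊢
    rw [h1]
    exact h2

end Helper14_UG
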