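import Pool.Agent.Helper14_UG.Defs
import Pool.Agent.Helper49_RK.Test

/-!
# Basic facts on the complexity
-/

namespace Helper14_UG

open Helper49_RK

theorem comp_le {M : List Bool →. List Bool} {x p : List Bool} (h : x ∈ M p) :
    comp M x ≤ p.length := iInf₂_le p h

theorem comp_lt_iff {M : List Bool →. List Bool} {x : List Bool} {n : ℕ∞} :
    comp M x < n ↔ ∃ p, x ∈ M p ∧ (p.length : ℕ∞) < n := by
  unfold comp
  simp only [iInf_lt_iff, exists_prop]

theorem exists_prog {M : List Bool →. List Bool} {x : List Bool} (h : comp M x ≠ ⊤) :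
    ∃ p, x ∈ M p ∧ comp M x = p.length := by
  have h1 : comp M x < comp M x + 1 := by
    obtain ⟨k, hk⟩ := ENat.ne_top_iff_exists.1 h
    rw [← hk]
    exact_mod_cast Nat.lt_succ_self k
  obtain ⟨p, hp, hlt⟩ := comp_lt_iff.1 h1
  refine ⟨p, hp, le_antisymm (comp_le hp) ?_⟩
  exact Order.le_of_lt_add_one hlt

/-- the two kinds of optimal machines -/
def Opt (U : List Bool →. List Bool) : Prop := OptimalPrefixFree U ∨ OptimalPlain U

theorem Opt.partrec {U : List Bool →. List Bool} (h : Opt U) : Partrec U := by
  rcases h with h | h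
  · exact h.1.1
  · exact h.1

/-- applying a computable function costs a constant -/
theorem Opt.post {U : List Bool →. List Bool} (h : Opt U) {g : List Bool → List Bool}
    (hg : Computable g) : ∃ c : ℕ, ∀ x, comp U (g x) ≤ comp U x + c := by
  have hM : Partrec fun p => (U p).map g := h.partrec.map (hg.comp Computable.snd).to₂
  have hle : ∀ x, comp (fun p => (U p).map g) (g x) ≤ comp U x := by
    intro x
    refine le_iInf₂ fun p hp => ?_
    exact comp_le (M := fun p => (U p).map g) (Part.mem_map g hp)
  rcases h with h | h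
  · obtain ⟨c, hc⟩ := h.2 _ hM (fun p q hp hq => h.1.2 p q hp hq)
    exact ⟨c, fun x => (hc _).trans (add_le_add_left (hle x) _)⟩
  · obtain ⟨c, hc⟩ := h.2 _ hM
    exact ⟨c, fun x => (hc _).trans (add_le_add_left (hle x) _)⟩

theorem Opt.ne_top {U : List Bool →. List Bool} (h : Opt U) (x : List Bool) :
    comp U x ≠ ⊤ := by
  let f : List Bool → Option (List Bool) := fun p => if p = [] then some x else none
  have hf : Primrec f := Primrec.ite (Primrec.eq.comp Primrec.id (Primrec.const []))
    (Primrec.const (some x)) (Primrec.const none)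
  have hM : Partrec fun p => (f p : Part (List Bool)) := Computable.ofOption hf.to_comp
  have hpf : PrefixFree fun p => (f p : Part (List Bool)) := by
    have h1 : ∀ p, ((f p : Part (List Bool))).Dom → p = [] := by
      intro p hp
      by_contra hne
      simp [f, hne] at hp
    intro p q hp hq _
    rw [h1 p hp, h1 q hq]
  have h0 : comp (fun p => (f p : Part (List Bool))) x ≤ 0 := by
    have h1 : x ∈ (f [] : Part (List Bool)) := by simp [f]
    exact comp_le (M := fun p => (f p : Part (List Bool))) h1
  have h2 : ∃ c : ℕ, comp U x ≤ c := by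
    rcases h with h | h
    · obtain ⟨c, hc⟩ := h.2 _ hM hpf
      exact ⟨c, (hc x).trans ((add_le_add_left h0 _).trans (by rw [zero_add]))⟩
    · obtain ⟨c, hc⟩ := h.2 _ hM
      exact ⟨c, (hc x).trans ((add_le_add_left h0 _).trans (by rw [zero_add]))⟩
  obtain ⟨c, hc⟩ := h2
  exact ne_top_of_le_ne_top (ENat.coe_ne_top c) hc

/-- one more letter costs a constant -/
theorem Opt.snoc {U : List Bool →. List Bool} (h : Opt U) :
    ∃ B : ℕ, ∀ x b, comp U (x ++ [b]) ≤ comp U x + B := by
  obtain ⟨c1, h1⟩ := h.post (g := fun x => x ++ [false])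
    (Computable.list_append.comp Computable.id (Computable.const _))
  obtain ⟨c2, h2⟩ := h.post (g := fun x => x ++ [true])
    (Computable.list_append.comp Computable.id (Computable.const _))
  refine ⟨c1 + c2, fun x b => ?_⟩
  cases b
  · refine (h1 x).trans (add_le_add_right ?_ _)
    exact_mod_cast Nat.le_add_right _ _
  · refine (h2 x).trans (add_le_add_right ?_ _)
    exact_mod_cast Nat.le_add_left _ _

theorem Opt.append {U : List Bool →. List Bool} (h : Opt U) :
    ∃ B : ℕ, ∀ y x : List Bool, comp U (x ++ y) ≤ comp U x + (y.length * B : ℕ) := by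
  obtain ⟨B, hB⟩ := h.snoc
  refine ⟨B, fun y => ?_⟩
  induction y with
  | nil => intro x; simp
  | cons b y ih =>
    intro x
    have h1 : x ++ b :: y = (x ++ [b]) ++ y := by simp
    rw [h1]
    refine (ih _).trans ((add_le_add_left (hB x b) _).trans ?_)
    rw [List.length_cons, add_assoc]
    refine add_le_add_right ?_ _
    have : B + y.length * B = (y.length + 1) * B := by ring
    rw [← this]
    push_cast
    exact le_rfl

/-- the real which continues a string by zeros -/
def ext (τ : List Bool) : ℕ → Bool := fun i => τ.getD i false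

theorem seg_ext (τ : List Bool) : seg (ext τ) τ.length = τ := by
  unfold seg ext
  refine List.ext_getElem (by simp) fun i h1 h2 => ?_
  simp [List.getD_eq_getElem?_getD, h2]

theorem take_seg (Z : ℕ → Bool) {m n : ℕ} (h : m ≤ n) : (seg Z n).take m = seg Z m := by
  unfold seg
  rw [← List.map_take, List.take_range, min_eq_left h]

theorem seg_ext_le (τ : List Bool) {m : ℕ} (h : m ≤ τ.length) : seg (ext τ) m = τ.take m := by
  rw [← take_seg (ext τ) h, seg_ext]

theorem toStr_val (τ : List Bool) : toStr τ.length (val τ) = τ := by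
  have h := toStr_val_seg (ext τ) τ.length
  rwa [seg_ext] at h

theorem val_lt (τ : List Bool) : val τ < 2 ^ τ.length := by
  have h := val_seg_lt (ext τ) τ.length
  rwa [seg_ext] at h

theorem length_toStr (n v : ℕ) : (toStr n v).length = n := by simp [toStr]

/-- all strings of length `n` -/
def strs (n : ℕ) : List (List Bool) := (List.range (2 ^ n)).map (toStr n)

theorem mem_strs {n : ℕ} {τ : List Bool} : τ ∈ strs n ↔ τ.length = n := by
  unfold strs
  rw [List.mem_map]
  constructor
  · rintro ⟨v, -, rfl⟩
    exact length_toStr n v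
  · rintro rfl
    exact ⟨val τ, List.mem_range.2 (val_lt τ), toStr_val τ⟩

theorem nodup_strs (n : ℕ) : (strs n).Nodup := by
  refine List.Nodup.map_on ?_ List.nodup_range
  intro v hv w hw h
  rw [List.mem_range] at hv hw
  rw [← val_toStr hv, ← val_toStr hw, h]

end Helper14_UG
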