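import Pool.Agent.Helper49_RK.Defs

/-!
# Definitions: complexity reducibilities and the reals below a random one

The definitions of `seg`, `coin`, `cyl`, `IsMLTest`, `MLRandom` are in `Helper49_RK.Defs`.
-/

namespace Helper14_UG

open Helper49_RK

/-- The complexity of the string `x` with respect to the machine `M`: the least length of a program
`p` with `M p = x` (infinity if there is none). -/
noncomputable def comp (M : List Bool →. List Bool) (x : List Bool) : ℕ∞ :=
  ⨅ (p : List Bool) (_ : x ∈ M p), (p.length : ℕ∞)

/-- The programs on which the machine `M` halts form a prefix-free set. -/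
def PrefixFree (M : List Bool →. List Bool) : Prop :=
  ∀ p q, (M p).Dom → (M q).Dom → p <+: q → p = q

/-- `U` is an optimal (universal) machine; `comp U` is then plain Kolmogorov complexity `C`. -/
def OptimalPlain (U : List Bool →. List Bool) : Prop :=
  Partrec U ∧ ∀ M : List Bool →. List Bool, Partrec M → ∃ c : ℕ, ∀ x, comp U x ≤ comp M x + c

/-- `U` is an optimal (universal) prefix-free machine; `comp U` is then prefix-free Kolmogorov
complexity `K`. -/
def OptimalPrefixFree (U : List Bool →. List Bool) : Prop :=
  (Partrec U ∧ PrefixFree U) ∧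
    ∀ M : List Bool →. List Bool, Partrec M → PrefixFree M → ∃ c : ℕ, ∀ x, comp U x ≤ comp M x + c

/-- The real `A` is below some `1`-random real `Z`: for some `c`, the complexity of `A ↾ n` is at
most the complexity of `Z ↾ n` plus `c`, for all `n`. -/
def BelowRandom (U : List Bool →. List Bool) (A : ℕ → Bool) : Prop :=
  ∃ Z : ℕ → Bool, MLRandom Z ∧ ∃ c : ℕ, ∀ n, comp U (seg A n) ≤ comp U (seg Z n) + c

/-- The real `A` is the limit of a computable sequence of reals (that is, `A` is `Δ⁰₂`, or
equivalently computable in the halting problem). -/
def LimitComputable (A : ℕ → Bool) : Prop :=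
  ∃ f : ℕ → ℕ → Bool, Computable₂ f ∧ ∀ n, ∃ s, ∀ t ≥ s, f n t = A n

end Helper14_UG
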