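import Pool.Agent.Helper14_UG.Approx
import Pool.Agent.Helper49_RK.Meas

/-!
# Levin and Schnorr, first part: initial segments of random reals are complex
-/

namespace Helper14_UG

open Helper49_RK Primrec MeasureTheory
open Nat.Partrec (Code)
open scoped ENNReal

instance : IsProbabilityMeasure coin := by
  unfold coin
  infer_instance

/-- the reals which extend the string `σ` -/
def Cy (σ : List Bool) : Set (ℕ → Bool) := {Z | seg Z σ.length = σ}

theorem Cy_eq_pi (σ : List Bool) :
    Cy σ = Set.pi (Finset.range σ.length) fun i => {σ.getD i false} := by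
  ext Z
  simp only [Cy, Set.mem_ofPred_eq, Set.mem_pi, Finset.coe_range, Set.mem_Iio,
    Set.mem_singleton_iff]
  constructor
  · intro h i hi
    have h1 : (seg Z σ.length).getD i false = σ.getD i false := by rw [h]
    rw [← h1]
    simp [seg, List.getD_eq_getElem?_getD, hi]
  · intro h
    conv_rhs => rw [← seg_ext σ]
    unfold seg
    exact List.map_congr_left fun n hn => h n (List.mem_range.1 hn)

theorem measurableSet_Cy (σ : List Bool) : MeasurableSet (Cy σ) := by
  rw [Cy_eq_pi]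
  exact MeasurableSet.pi (Finset.countable_toSet _) fun i _ => MeasurableSet.singleton _

theorem coin_Cy (σ : List Bool) : coin (Cy σ) = (1 / 2 : ℝ≥0∞) ^ σ.length := by
  rw [Cy_eq_pi]
  unfold coin
  rw [Measure.infinitePi_pi]
  · have : ∀ b : Bool, (PMF.uniformOfFintype Bool).toMeasure {b} = (1 / 2 : ℝ≥0∞) := by
      intro b
      rw [PMF.toMeasure_apply_singleton _ _ (MeasurableSet.singleton b),
        PMF.uniformOfFintype_apply]
      simp
    simp only [this, Finset.prod_const, Finset.card_range]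
  · intro i _
    exact MeasurableSet.singleton _

theorem prefix_of_mem_Cy {Z : ℕ → Bool} {σ τ : List Bool} (h1 : Z ∈ Cy σ) (h2 : Z ∈ Cy τ)
    (h : σ.length ≤ τ.length) : σ <+: τ := by
  have h3 : τ.take σ.length = σ := by
    have h4 : seg Z τ.length = τ := h2
    have h5 : seg Z σ.length = σ := h1
    rw [← h4, take_seg Z h, h5]
  rw [← h3]
  exact List.take_prefix _ _

/-- the inequality of Kraft -/
theorem kraft {D : Set (List Bool)} (hD : ∀ p ∈ D, ∀ q ∈ D, p <+: q → p = q) :
    ∑' p : D, (1 / 2 : ℝ≥0∞) ^ (p : List Bool).length ≤ 1 := by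
  have h1 : coin (⋃ p : D, Cy p) = ∑' p : D, coin (Cy (p : List Bool)) := by
    refine measure_iUnion ?_ fun p => measurableSet_Cy _
    intro p q hpq
    refine Set.disjoint_left.2 fun Z hZp hZq => hpq ?_
    rcases le_total (p : List Bool).length (q : List Bool).length with h | h
    · exact Subtype.ext (hD _ p.2 _ q.2 (prefix_of_mem_Cy hZp hZq h))
    · exact Subtype.ext (hD _ q.2 _ p.2 (prefix_of_mem_Cy hZq hZp h)).symm
  simp only [coin_Cy] at h1
  rw [← h1]
  exact prob_le_one

/-- stage of the test of the compressible strings -/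
def CT (c : Code) (q : ℕ × List Bool) (n : ℕ) : Prop :=
  Code.evaln n.unpair.1 c n.unpair.2 = some (Encodable.encode q.2) ∧
    len n.unpair.2 + q.1 ≤ q.2.length

theorem ctP (c : Code) : PrimrecRel (CT c) := by
  have u1 : Primrec fun y : (ℕ × List Bool) × ℕ => y.2.unpair.1 := fst.comp (unpair.comp snd)
  have u2 : Primrec fun y : (ℕ × List Bool) × ℕ => y.2.unpair.2 := snd.comp (unpair.comp snd)
  refine PrimrecPred.and ?_ ?_
  · have a2 : Primrec fun y : (ℕ × List Bool) × ℕ => Code.evaln y.2.unpair.1 c y.2.unpair.2 :=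
      Code.primrec_evaln.comp ((u1.pair (Primrec.const c)).pair u2)
    have a3 : Primrec fun y : (ℕ × List Bool) × ℕ => some (Encodable.encode y.1.2) :=
      option_some.comp (Primrec.encode.comp (snd.comp fst))
    exact Primrec.eq.comp a2 a3
  · exact nat_le.comp (nat_add.comp (lenP.comp u2) (fst.comp fst))
      (list_length.comp (snd.comp fst))

/-- the test of the compressible strings -/
def CW (c : Code) (k : ℕ) : Set (List Bool) := {σ | ∃ n, CT c (k, σ) n}

theorem mem_CW {V : List Bool →. List Bool} {c : Code}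
    (hc : ∀ i x, Encodable.encode x ∈ c.eval i ↔
      ∃ p : List Bool, Encodable.decode i = some p ∧ x ∈ V p) {k : ℕ} {σ : List Bool} :
    σ ∈ CW c k ↔ ∃ p : List Bool, σ ∈ V p ∧ p.length + k ≤ σ.length := by
  constructor
  · rintro ⟨n, h1, h2⟩
    obtain ⟨p, hp, hσ⟩ := (hc _ _).1 (Code.evaln_sound h1)
    refine ⟨p, hσ, ?_⟩
    have h3 : len n.unpair.2 = p.length := by simp [len, hp]
    rw [← h3]
    exact h2
  · rintro ⟨p, hσ, hp⟩
    have h1 : Encodable.encode σ ∈ c.eval (Encodable.encode p) :=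
      (hc _ _).2 ⟨p, Encodable.encodek p, hσ⟩
    obtain ⟨t, ht⟩ := Code.evaln_complete.1 h1
    refine ⟨Nat.pair t (Encodable.encode p), ?_, ?_⟩
    · simp only [Nat.unpair_pair]
      exact ht
    · simp only [Nat.unpair_pair, len_encode]
      exact hp

theorem CW_test {V : List Bool →. List Bool} (hV : PrefixFree V) {c : Code}
    (hc : ∀ i x, Encodable.encode x ∈ c.eval i ↔
      ∃ p : List Bool, Encodable.decode i = some p ∧ x ∈ V p) : IsMLTest (CW c) := by
  refine ⟨re_exists (ctP c), fun k => ?_⟩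
  have hex : ∀ σ : CW c k, ∃ p : List Bool, (σ : List Bool) ∈ V p ∧
      p.length + k ≤ (σ : List Bool).length := fun σ => (mem_CW hc).1 σ.2
  choose P hP1 hP2 using hex
  let D : Set (List Bool) := {p | (V p).Dom}
  let F : CW c k → D := fun σ => ⟨P σ, Part.dom_iff_mem.2 ⟨_, hP1 σ⟩⟩
  have hF : Function.Injective F := by
    intro σ τ h
    have h1 : P σ = P τ := congrArg Subtype.val h
    have h2 := hP1 σ
    rw [h1] at h2
    exact Subtype.ext (Part.mem_unique h2 (hP1 τ))
  have h0 : cyl (CW c k) ⊆ ⋃ σ : CW c k, Cy σ := by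
    rintro Z ⟨n, hn⟩
    refine Set.mem_iUnion.2 ⟨⟨seg Z n, hn⟩, ?_⟩
    simp only [Cy, Set.mem_ofPred_eq, length_seg]
  calc coin (cyl (CW c k)) ≤ coin (⋃ σ : CW c k, Cy σ) := measure_mono h0
    _ ≤ ∑' σ : CW c k, coin (Cy σ) := measure_iUnion_le _
    _ = ∑' σ : CW c k, (1 / 2 : ℝ≥0∞) ^ (σ : List Bool).length := by simp only [coin_Cy]
    _ ≤ ∑' σ : CW c k, (1 / 2 : ℝ≥0∞) ^ k * (1 / 2 : ℝ≥0∞) ^ (F σ : List Bool).length := by
        refine ENNReal.tsum_le_tsum fun σ => ?_
        rw [← pow_add, add_comm k]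
        exact pow_le_pow_right_of_le_one' (by norm_num) (hP2 σ)
    _ = (1 / 2 : ℝ≥0∞) ^ k * ∑' σ : CW c k, (1 / 2 : ℝ≥0∞) ^ (F σ : List Bool).length :=
        ENNReal.tsum_mul_left
    _ ≤ (1 / 2 : ℝ≥0∞) ^ k * ∑' p : D, (1 / 2 : ℝ≥0∞) ^ (p : List Bool).length := by
        gcongr
        exact ENNReal.tsum_comp_le_tsum_of_injective hF
          fun p : D => (1 / 2 : ℝ≥0∞) ^ (p : List Bool).length
    _ ≤ (1 / 2 : ℝ≥0∞) ^ k * 1 := by
        gcongr
        exact kraft fun p hp q hq => hV p q hp hq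
    _ = (1 / 2 : ℝ≥0∞) ^ k := mul_one _

/-- Levin and Schnorr, first part -/
theorem complex_of_random {V : List Bool →. List Bool} (hV : Partrec V) (hVf : PrefixFree V)
    {Z : ℕ → Bool} (hZ : MLRandom Z) : ∃ d : ℕ, ∀ n : ℕ, (n : ℕ∞) ≤ comp V (seg Z n) + d := by
  obtain ⟨c, hc⟩ := exists_code hV
  obtain ⟨k, hk⟩ := hZ _ (CW_test hVf hc)
  refine ⟨k, fun n => ?_⟩
  by_contra hlt
  push Not at hlt
  have h1 : comp V (seg Z n) ≠ ⊤ := by
    intro h
    rw [h, top_add] at hlt
    exact not_top_lt hlt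
  obtain ⟨p, hp, hlen⟩ := exists_prog h1
  rw [hlen] at hlt
  have h2 : p.length + k < n := by exact_mod_cast hlt
  exact hk ⟨n, (mem_CW hc).2 ⟨p, hp, by rw [length_seg]; omega⟩⟩

end Helper14_UG
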