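import Pool.Agent.Helper14_UG.Hard

/-!
# The dichotomy: uniformly below a random real, or not below any random real for a generic real
-/

namespace Helper14_UG

open Helper49_RK MeasureTheory Filter Topology

/-- the complexity as a natural number -/
noncomputable def cn (U : List Bool →. List Bool) (x : List Bool) : ℕ := (comp U x).toNat

theorem Opt.cast {U : List Bool →. List Bool} (h : Opt U) (x : List Bool) :
    ((cn U x : ℕ) : ℕ∞) = comp U x := ENat.natCast_toNat (h.ne_top x)

theorem Opt.limU {U : List Bool →. List Bool} (h : Opt U) : ∃ k, Lim k (cn U) := by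
  obtain ⟨c, hc⟩ := exists_code h.partrec
  refine ⟨kap c, kapP c, fun n => ?_⟩
  filter_upwards [kap_cast hc h.ne_top n] with s hs x hx
  have h1 := hs x hx
  rw [← h.cast x] at h1
  exact_mod_cast h1

theorem Opt.reg {U : List Bool →. List Bool} (h : Opt U) : Reg (cn U) where
  drop k := by
    obtain ⟨c, hc⟩ := h.post (g := fun x => x.drop k)
      (Primrec.list_drop.comp (Primrec.const k) Primrec.id).to_comp
    refine ⟨c, fun x => ?_⟩
    have h1 := hc x
    rw [← h.cast, ← h.cast x] at h1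
    exact_mod_cast h1
  app := by
    obtain ⟨B, hB⟩ := h.append
    refine ⟨B, fun y x => ?_⟩
    have h1 := hB y x
    rw [← h.cast, ← h.cast x] at h1
    exact_mod_cast h1
  lim := h.limU

/-- the finite statement -/
def Unif (U V : List Bool →. List Bool) (c d : ℕ) (σ : List Bool) : Prop :=
  ∃ τ : List Bool, τ.length = σ.length ∧ ∀ m ≤ σ.length,
    comp U (σ.take m) ≤ comp U (τ.take m) + c ∧ (m : ℕ∞) ≤ comp V (τ.take m) + d

theorem unif_iff {U V : List Bool →. List Bool} (hU : Opt U) (hV : Opt V) {c d : ℕ}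
    {σ : List Bool} : Unif U V c d σ ↔ ¬ Bad (cn U) (cn V) c d σ := by
  unfold Unif Bad
  push Not
  have h1 : ∀ (τ : List Bool) (m : ℕ),
      (comp U (σ.take m) ≤ comp U (τ.take m) + c ∧ (m : ℕ∞) ≤ comp V (τ.take m) + d) ↔
      (cn U (σ.take m) ≤ cn U (τ.take m) + c ∧ m ≤ cn V (τ.take m) + d) := by
    intro τ m
    rw [← hU.cast (σ.take m), ← hU.cast (τ.take m), ← hV.cast (τ.take m)]
    constructor
    · rintro ⟨h1, h2⟩
      exact ⟨by exact_mod_cast h1, by exact_mod_cast h2⟩
    · rintro ⟨h1, h2⟩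
      exact ⟨by exact_mod_cast h1, by exact_mod_cast h2⟩
  simp only [h1]

/-! ### Topology -/

theorem isOpen_Cy (σ : List Bool) : IsOpen (Cy σ) := by
  rw [Cy_eq_pi]
  exact isOpen_set_pi (Finset.finite_toSet _) fun i _ => isOpen_discrete _

theorem isOpen_seg (P : List Bool → Prop) (n : ℕ) : IsOpen {Z : ℕ → Bool | P (seg Z n)} := by
  have h1 : {Z : ℕ → Bool | P (seg Z n)} = ⋃ σ ∈ {σ : List Bool | σ.length = n ∧ P σ}, Cy σ := by
    ext Z
    simp only [Set.mem_ofPred_eq, Set.mem_iUnion, exists_prop, Cy]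
    constructor
    · intro h
      exact ⟨seg Z n, ⟨length_seg Z n, h⟩, by rw [length_seg]⟩
    · rintro ⟨σ, ⟨h2, h3⟩, h4⟩
      rw [h2] at h4
      rwa [h4]
  rw [h1]
  exact isOpen_biUnion fun σ _ => isOpen_Cy σ

theorem isClosed_seg (P : List Bool → Prop) (n : ℕ) : IsClosed {Z : ℕ → Bool | P (seg Z n)} := by
  rw [← isOpen_compl_iff]
  exact isOpen_seg (fun x => ¬ P x) n

theorem exists_Cy_subset {O : Set (ℕ → Bool)} (hO : IsOpen O) {A : ℕ → Bool} (hA : A ∈ O) :
    ∃ n, Cy (seg A n) ⊆ O := by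
  obtain ⟨I, u, h1, h2⟩ := isOpen_pi_iff.1 hO A hA
  refine ⟨I.sup id + 1, fun Z hZ => h2 fun i hi => ?_⟩
  have h3 : seg Z (seg A (I.sup id + 1)).length = seg A (I.sup id + 1) := hZ
  rw [length_seg] at h3
  have h4 : i < I.sup id + 1 := Nat.lt_succ_of_le (Finset.le_sup (f := id) hi)
  have h5 : Z i = A i := by
    have h6 := congrArg (fun L : List Bool => L[i]?) h3
    simpa [seg, h4] using h6
  rw [h5]
  exact (h1 i hi).2

/-! ### The implications -/

theorem below_of_unif {U V : List Bool →. List Bool} (hV : OptimalPrefixFree V) {c d : ℕ}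
    {A : ℕ → Bool} (h : ∀ n, Unif U V c d (seg A n)) : BelowRandom U A := by
  let K : ℕ → Set (ℕ → Bool) := fun n => {Z | ∀ m ≤ n, comp U (seg A m) ≤ comp U (seg Z m) + c ∧
    (m : ℕ∞) ≤ comp V (seg Z m) + d}
  have hK : ∀ n, K n = {Z | (fun x : List Bool => ∀ m ≤ n, comp U (seg A m) ≤
      comp U (x.take m) + c ∧ (m : ℕ∞) ≤ comp V (x.take m) + d) (seg Z n)} := by
    intro n
    ext Z
    simp only [K, Set.mem_ofPred_eq]
    refine forall_congr' fun m => forall_congr' fun hm => ?_
    rw [take_seg Z hm]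
  have hcl : ∀ n, IsClosed (K n) := fun n => by
    rw [hK]
    exact isClosed_seg (fun x : List Bool => ∀ m ≤ n, comp U (seg A m) ≤
      comp U (x.take m) + c ∧ (m : ℕ∞) ≤ comp V (x.take m) + d) n
  have hne : ∀ n, (K n).Nonempty := by
    intro n
    obtain ⟨τ, hτ, h1⟩ := h n
    rw [length_seg] at hτ h1
    refine ⟨ext τ, fun m hm => ?_⟩
    have h2 := h1 m hm
    rw [take_seg A hm] at h2
    rwa [seg_ext_le τ (by omega)]
  obtain ⟨Z, hZ⟩ := IsCompact.nonempty_iInter_of_sequence_nonempty_isCompact_isClosed K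
    (fun n Z hZ m hm => hZ m (by omega)) hne (hcl 0).isCompact hcl
  rw [Set.mem_iInter] at hZ
  refine ⟨Z, ?_, c, fun n => (hZ n n le_rfl).1⟩
  exact random_of_complex hV (d := d) fun n => (hZ n n le_rfl).2

theorem not_bad_of_below {U V : List Bool →. List Bool} (hU : Opt U)
    (hV : OptimalPrefixFree V) {A : ℕ → Bool} (h : BelowRandom U A) :
    ∃ e, ∀ n, ¬ Bad (cn U) (cn V) e e (seg A n) := by
  obtain ⟨Z, hZ, c, hc⟩ := h
  obtain ⟨d, hd⟩ := complex_of_random hV.1.1 hV.1.2 hZ
  refine ⟨max c d, fun n => ?_⟩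
  rw [← unif_iff hU (Or.inl hV)]
  refine ⟨seg Z n, by simp, fun m hm => ?_⟩
  rw [length_seg] at hm
  rw [take_seg A hm, take_seg Z hm]
  constructor
  · refine (hc m).trans (add_le_add_right ?_ _)
    exact_mod_cast le_max_left c d
  · refine (hd m).trans (add_le_add_right ?_ _)
    exact_mod_cast le_max_right c d

theorem meagre_of_bad {U V : List Bool →. List Bool} (hU : Opt U)
    (hV : OptimalPrefixFree V) (h : ∀ c d, ∃ σ, Bad (cn U) (cn V) c d σ) :
    IsMeagre {A | BelowRandom U A} := by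
  let F : ℕ → Set (ℕ → Bool) := fun e => {A | ∀ n, ¬ Bad (cn U) (cn V) e e (seg A n)}
  have hsub : {A | BelowRandom U A} ⊆ ⋃ e, F e := fun A hA =>
    Set.mem_iUnion.2 (not_bad_of_below hU hV hA)
  refine IsMeagre.mono hsub (isMeagre_iUnion fun e => ?_)
  have hcl : IsClosed (F e) := by
    have h1 : F e = ⋂ n, {A | (fun x => ¬ Bad (cn U) (cn V) e e x) (seg A n)} := by
      ext A
      simp [F]
    rw [h1]
    exact isClosed_iInter fun n => isClosed_seg (fun x => ¬ Bad (cn U) (cn V) e e x) n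
  refine (hcl.isNowhereDense_iff.2 ?_).isMeagre
  by_contra hne
  obtain ⟨A, hA⟩ := Set.nonempty_iff_ne_empty.2 hne
  obtain ⟨n, hn⟩ := exists_Cy_subset isOpen_interior hA
  obtain ⟨σ, h1, -, h3⟩ := dense_bad hU.reg h (seg A n) e e 0
  have h4 : ext σ ∈ Cy (seg A n) := by
    rw [length_seg] at h1
    have h5 : n ≤ σ.length := by
      have h6 := congrArg List.length h1
      rw [List.length_take, length_seg] at h6
      omega
    change seg (ext σ) (seg A n).length = seg A n
    rw [length_seg, seg_ext_le σ h5, h1]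
  have h7 := interior_subset (hn h4)
  have h8 := h7 σ.length
  rw [seg_ext] at h8
  exact h8 h3

theorem main {U V : List Bool →. List Bool} (hU : Opt U) (hV : OptimalPrefixFree V) :
    List.TFAE [∀ A, BelowRandom U A,
      ∀ A, LimitComputable A → BelowRandom U A,
      ¬ IsMeagre {A | BelowRandom U A},
      ∃ c d : ℕ, ∀ σ, Unif U V c d σ] := by
  have hV' : Opt V := Or.inl hV
  tfae_have 1 → 2 := fun h A _ => h A
  tfae_have 1 → 3 := by
    intro h
    have h1 : {A | BelowRandom U A} = Set.univ := Set.eq_univ_of_forall h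
    rw [h1]
    exact not_isMeagre_of_isOpen isOpen_univ Set.univ_nonempty
  tfae_have 4 → 1 := by
    rintro ⟨c, d, h⟩ A
    exact below_of_unif hV fun n => h _
  tfae_have 2 → 4 := by
    intro h
    by_contra hn
    push Not at hn
    have hbad : ∀ c d, ∃ σ, Bad (cn U) (cn V) c d σ := by
      intro c d
      obtain ⟨σ, hσ⟩ := hn c d
      rw [unif_iff hU hV', not_not] at hσ
      exact ⟨σ, hσ⟩
    obtain ⟨A, hA, hAbad⟩ := exists_limitComputable hU.reg hV'.limU hbad
    obtain ⟨e, he⟩ := not_bad_of_below hU hV (h A hA)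
    obtain ⟨n, hn'⟩ := hAbad e
    exact he n hn'
  tfae_have 3 → 4 := by
    intro h
    by_contra hn
    push Not at hn
    refine h (meagre_of_bad hU hV fun c d => ?_)
    obtain ⟨σ, hσ⟩ := hn c d
    rw [unif_iff hU hV', not_not] at hσ
    exact ⟨σ, hσ⟩
  tfae_finish

end Helper14_UG
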