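import Pool.Agent.Helper14_UG.Easy
import Pool.Agent.Helper14_UG.Bad

/-!
# Levin and Schnorr, second part: complex reals are random

The strings of a test are coded by a prefix-free machine in the order of the lengths.
-/

namespace Helper14_UG

open Helper49_RK Primrec MeasureTheory
open Nat.Partrec (Code)
open scoped ENNReal

/-- some initial segment of `τ` enters the `k`-th set of the test before stage `|τ|` -/
def Hit (c : Code) (k : ℕ) (τ : List Bool) : Prop :=
  ∃ j < τ.length + 1,
    (Code.evaln τ.length c (Encodable.encode (k, τ.take j))).isSome = true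

/-- the minimal strings with this property -/
def New (c : Code) (k : ℕ) (τ : List Bool) : Prop :=
  Hit c k τ ∧ ∀ i < τ.length, ¬ Hit c k (τ.take i)

theorem hitP (c : Code) : PrimrecRel (Hit c) := by
  have h1 : PrimrecRel fun (j : ℕ) (q : ℕ × List Bool) =>
      (Code.evaln q.2.length c (Encodable.encode (q.1, q.2.take j))).isSome = true := by
    have yj : Primrec fun y : ℕ × (ℕ × List Bool) => y.1 := fst
    have yk : Primrec fun y : ℕ × (ℕ × List Bool) => y.2.1 := fst.comp snd
    have yτ : Primrec fun y : ℕ × (ℕ × List Bool) => y.2.2 := snd.comp snd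
    have a1 : Primrec fun y : ℕ × (ℕ × List Bool) =>
        Encodable.encode (y.2.1, y.2.2.take y.1) :=
      Primrec.encode.comp (yk.pair (list_take.comp yj yτ))
    have a2 : Primrec fun y : ℕ × (ℕ × List Bool) =>
        Code.evaln y.2.2.length c (Encodable.encode (y.2.1, y.2.2.take y.1)) :=
      Code.primrec_evaln.comp (((list_length.comp yτ).pair (Primrec.const c)).pair a1)
    exact Primrec.eq.comp (option_isSome.comp a2) (Primrec.const true)
  exact bexN h1 (f := fun q : ℕ × List Bool => q.2.length + 1)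
    (succ.comp (list_length.comp snd))

theorem newP (c : Code) : PrimrecRel (New c) := by
  have h1 : PrimrecRel fun (i : ℕ) (q : ℕ × List Bool) => ¬ Hit c q.1 (q.2.take i) := by
    refine PrimrecPred.not ?_
    exact (hitP c).comp (fst.comp snd) (list_take.comp fst (snd.comp snd))
  exact PrimrecPred.and (hitP c) (ballN h1 (f := fun q : ℕ × List Bool => q.2.length)
    (list_length.comp snd))

open Classical in
/-- the list of the minimal strings of length `n` -/
noncomputable def nw (c : Code) (k n : ℕ) : List (List Bool) :=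
  (strs n).filter fun τ => decide (New c k τ)

theorem nwP (c : Code) : Primrec₂ (nw c) := by
  classical
  have h1 : PrimrecRel fun (τ : List Bool) (k : ℕ) => New c k τ :=
    (newP c).comp snd fst
  have h2 := h1.listFilter
  exact h2.comp (strsP.comp snd) fst

theorem mem_nw {c : Code} {k n : ℕ} {τ : List Bool} :
    τ ∈ nw c k n ↔ τ.length = n ∧ New c k τ := by
  classical
  unfold nw
  rw [List.mem_filter, mem_strs]
  simp

theorem nodup_nw (c : Code) (k n : ℕ) : (nw c k n).Nodup := by
  classical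
  unfold nw
  exact (nodup_strs n).filter _

/-- the first free code word of the level `n` -/
noncomputable def G (c : Code) (k : ℕ) : ℕ → ℕ
  | 0 => 0
  | n + 1 => 2 * (G c k n + (nw c k n).length)

theorem gP (c : Code) : Primrec₂ (G c) := by
  have h1 : Primrec₂ fun (k : ℕ) (p : ℕ × ℕ) => 2 * (p.2 + (nw c k p.1).length) :=
    nat_mul.comp (Primrec.const 2) (nat_add.comp (snd.comp snd)
      (list_length.comp ((nwP c).comp fst (fst.comp snd))))
  have h2 := Primrec.nat_rec (f := fun _ : ℕ => 0) (Primrec.const 0) h1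
  refine h2.of_eq fun k n => ?_
  induction n with
  | zero => rfl
  | succ n ih =>
    rw [G, ← ih]

theorem G_mono (c : Code) (k : ℕ) {n n' : ℕ} (h : n < n') :
    2 ^ (n' - n) * (G c k n + (nw c k n).length) ≤ G c k n' := by
  induction n' with
  | zero => omega
  | succ m ih =>
    rw [G]
    rcases Nat.lt_or_ge n m with h1 | h1
    · have h2 := ih h1
      rw [show m + 1 - n = (m - n) + 1 by omega, pow_succ]
      have h3 : 2 ^ (m - n) * 2 * (G c k n + (nw c k n).length) =
          2 * (2 ^ (m - n) * (G c k n + (nw c k n).length)) := by ring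
      rw [h3]
      omega
    · have h2 : n = m := by omega
      subst h2
      simp

theorem val_take_div (τ : List Bool) {i : ℕ} (h : i ≤ τ.length) :
    val τ / 2 ^ (τ.length - i) = val (τ.take i) := by
  have h1 := val_seg_div (ext τ) h
  rwa [seg_ext, seg_ext_le τ h] at h1

/-- the prefix-free machine -/
noncomputable def mach (c : Code) (q : List Bool) : Option (List Bool) :=
  if q.idxOf false < q.length ∧
    G c (2 * q.idxOf false) ((q.drop (q.idxOf false + 1)).length + 2 * q.idxOf false) ≤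
      val (q.drop (q.idxOf false + 1)) then
    (nw c (2 * q.idxOf false) ((q.drop (q.idxOf false + 1)).length + 2 * q.idxOf false))[
      val (q.drop (q.idxOf false + 1)) - G c (2 * q.idxOf false)
        ((q.drop (q.idxOf false + 1)).length + 2 * q.idxOf false)]?
  else none

theorem machP (c : Code) : Primrec (mach c) := by
  have qk : Primrec fun q : List Bool => q.idxOf false :=
    list_idxOf.comp (Primrec.const false) Primrec.id
  have qk2 : Primrec fun q : List Bool => 2 * q.idxOf false :=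
    nat_mul.comp (Primrec.const 2) qk
  have qr : Primrec fun q : List Bool => q.drop (q.idxOf false + 1) :=
    list_drop.comp (succ.comp qk) Primrec.id
  have qn : Primrec fun q : List Bool =>
      (q.drop (q.idxOf false + 1)).length + 2 * q.idxOf false :=
    nat_add.comp (list_length.comp qr) qk2
  have qG : Primrec fun q : List Bool => G c (2 * q.idxOf false)
      ((q.drop (q.idxOf false + 1)).length + 2 * q.idxOf false) := (gP c).comp qk2 qn
  have qv : Primrec fun q : List Bool => val (q.drop (q.idxOf false + 1)) := valP.comp qr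
  refine Primrec.ite (PrimrecPred.and (nat_lt.comp qk list_length) (nat_le.comp qG qv)) ?_
    (Primrec.const none)
  exact list_getElem?.comp ((nwP c).comp qk2 qn) (nat_sub.comp qv qG)

theorem mach_dom {c : Code} {q : List Bool} {σ : List Bool} (h : mach c q = some σ) :
    false ∈ q ∧ G c (2 * q.idxOf false)
      ((q.drop (q.idxOf false + 1)).length + 2 * q.idxOf false) ≤
        val (q.drop (q.idxOf false + 1)) ∧
    val (q.drop (q.idxOf false + 1)) < G c (2 * q.idxOf false)
      ((q.drop (q.idxOf false + 1)).length + 2 * q.idxOf false) +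
        (nw c (2 * q.idxOf false)
          ((q.drop (q.idxOf false + 1)).length + 2 * q.idxOf false)).length := by
  unfold mach at h
  split_ifs at h with h1
  obtain ⟨h2, -⟩ := List.getElem?_eq_some_iff.1 h
  refine ⟨List.idxOf_lt_length_iff.1 h1.1, h1.2, ?_⟩
  have h3 := h1.2
  omega

theorem mach_free (c : Code) : PrefixFree fun q => (mach c q : Part (List Bool)) := by
  intro p q hp hq hpq
  have hp' : ∃ σ, mach c p = some σ := by
    obtain ⟨σ, hσ⟩ := Part.dom_iff_mem.1 hp
    exact ⟨σ, by simpa using hσ⟩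
  have hq' : ∃ σ, mach c q = some σ := by
    obtain ⟨σ, hσ⟩ := Part.dom_iff_mem.1 hq
    exact ⟨σ, by simpa using hσ⟩
  obtain ⟨σ, hσ⟩ := hp'
  obtain ⟨τ, hτ⟩ := hq'
  obtain ⟨a1, a2, a3⟩ := mach_dom hσ
  obtain ⟨b1, b2, b3⟩ := mach_dom hτ
  obtain ⟨t, rfl⟩ := hpq
  have hidx : (p ++ t).idxOf false = p.idxOf false := List.idxOf_append_of_mem a1
  rw [hidx] at b2 b3
  set k := p.idxOf false with hk
  have hklt : k < p.length := List.idxOf_lt_length_iff.2 a1
  have hdrop : (p ++ t).drop (k + 1) = p.drop (k + 1) ++ t := by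
    rw [List.drop_append_of_le_length (by omega)]
  rw [hdrop] at b2 b3
  set r := p.drop (k + 1) with hr
  by_contra hne
  have ht : t ≠ [] := by
    rintro rfl
    exact hne (by simp)
  have htl : 0 < t.length := List.length_pos_iff.2 ht
  have h1 := G_mono c (2 * k) (n := r.length + 2 * k) (n' := (r ++ t).length + 2 * k)
    (by rw [List.length_append]; omega)
  have h2 : (r ++ t).length + 2 * k - (r.length + 2 * k) = t.length := by
    rw [List.length_append]; omega
  rw [h2] at h1
  have h3 := val_take_div (r ++ t) (i := r.length) (by rw [List.length_append]; omega)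
  rw [List.take_left' rfl, List.length_append, Nat.add_sub_cancel_left] at h3
  have h4 : val (r ++ t) < 2 ^ t.length * (val r + 1) := by
    have h5 : val (r ++ t) / 2 ^ t.length < val r + 1 := by omega
    have h6 := (Nat.div_lt_iff_lt_mul (by positivity)).1 h5
    rwa [mul_comm] at h6
  have h7 : 2 ^ t.length * (val r + 1) ≤ 2 ^ t.length *
      (G c (2 * k) (r.length + 2 * k) + (nw c (2 * k) (r.length + 2 * k)).length) :=
    Nat.mul_le_mul_left _ (by omega)
  omega

/-! ### The measure -/

theorem measurableSet_seg (P : List Bool → Prop) (n : ℕ) :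
    MeasurableSet {Z : ℕ → Bool | P (seg Z n)} := by
  have h1 : {Z : ℕ → Bool | P (seg Z n)} = ⋃ σ ∈ {σ : List Bool | σ.length = n ∧ P σ}, Cy σ := by
    ext Z
    simp only [Set.mem_ofPred_eq, Set.mem_iUnion, exists_prop, Cy]
    constructor
    · intro h
      exact ⟨seg Z n, ⟨length_seg Z n, h⟩, by rw [length_seg]⟩
    · rintro ⟨σ, ⟨h2, h3⟩, h4⟩
      rw [h2] at h4
      rwa [h4]
  rw [h1]
  exact MeasurableSet.biUnion (Set.to_countable _) fun σ _ => measurableSet_Cy σ

theorem coin_new (c : Code) (k n : ℕ) :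
    coin {Z : ℕ → Bool | New c k (seg Z n)} = (nw c k n).length * (1 / 2 : ℝ≥0∞) ^ n := by
  classical
  have h1 : {Z : ℕ → Bool | New c k (seg Z n)} = ⋃ σ ∈ (nw c k n).toFinset, Cy σ := by
    ext Z
    simp only [Set.mem_ofPred_eq, Set.mem_iUnion, exists_prop, Cy, List.mem_toFinset, mem_nw]
    constructor
    · intro h
      exact ⟨seg Z n, ⟨length_seg Z n, h⟩, by rw [length_seg]⟩
    · rintro ⟨σ, ⟨h2, h3⟩, h4⟩
      rw [h2] at h4
      rwa [h4]
  rw [h1, measure_biUnion_finset]
  · have h2 : ∀ σ ∈ (nw c k n).toFinset, coin (Cy σ) = (1 / 2 : ℝ≥0∞) ^ n := by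
      intro σ hσ
      rw [coin_Cy, (mem_nw.1 (List.mem_toFinset.1 hσ)).1]
    rw [Finset.sum_congr rfl h2, Finset.sum_const, List.toFinset_card_of_nodup (nodup_nw c k n),
      nsmul_eq_mul]
  · intro σ hσ τ hτ hne
    refine Set.disjoint_left.2 fun Z h3 h4 => hne ?_
    have h5 := (mem_nw.1 (List.mem_toFinset.1 hσ)).1
    have h6 := (mem_nw.1 (List.mem_toFinset.1 hτ)).1
    have h7 : seg Z σ.length = σ := h3
    have h8 : seg Z τ.length = τ := h4
    rw [← h7, ← h8, h5, h6]
  · intro σ _
    exact measurableSet_Cy σ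

theorem coin_G (c : Code) (k n : ℕ) :
    coin {Z : ℕ → Bool | ∃ m < n, New c k (seg Z m)} = G c k n * (1 / 2 : ℝ≥0∞) ^ n := by
  induction n with
  | zero => simp [G]
  | succ n ih =>
    have h1 : {Z : ℕ → Bool | ∃ m < n + 1, New c k (seg Z m)} =
        {Z : ℕ → Bool | ∃ m < n, New c k (seg Z m)} ∪ {Z : ℕ → Bool | New c k (seg Z n)} := by
      ext Z
      simp only [Set.mem_ofPred_eq, Set.mem_union]
      constructor
      · rintro ⟨m, hm, h⟩
        rcases Nat.lt_or_ge m n with h2 | h2
        · exact Or.inl ⟨m, h2, h⟩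
        · have h3 : m = n := by omega
          subst h3
          exact Or.inr h
      · rintro (⟨m, hm, h⟩ | h)
        · exact ⟨m, by omega, h⟩
        · exact ⟨n, by omega, h⟩
    have h2 : Disjoint {Z : ℕ → Bool | ∃ m < n, New c k (seg Z m)}
        {Z : ℕ → Bool | New c k (seg Z n)} := by
      refine Set.disjoint_left.2 ?_
      rintro Z ⟨m, hm, h⟩ h'
      have h3 := h'.2 m (by rw [length_seg]; exact hm)
      rw [take_seg Z hm.le] at h3
      exact h3 h.1
    rw [h1, measure_union h2 (measurableSet_seg _ _), ih, coin_new, G, pow_succ]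
    have h3 : (2 : ℝ≥0∞) * (1 / 2) = 1 := by
      rw [one_div]
      exact ENNReal.mul_inv_cancel (by norm_num) (by norm_num)
    push_cast
    calc (G c k n : ℝ≥0∞) * (1 / 2) ^ n + (nw c k n).length * (1 / 2) ^ n =
        (G c k n + (nw c k n).length) * (1 / 2) ^ n * 1 := by ring
      _ = (G c k n + (nw c k n).length) * (1 / 2) ^ n * (2 * (1 / 2)) := by rw [h3]
      _ = 2 * (G c k n + (nw c k n).length) * ((1 / 2) ^ n * (1 / 2)) := by ring

/-- the code words do not run out -/
theorem G_bound {W : ℕ → Set (List Bool)} {c : Code}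
    (hc : ∀ k σ, (c.eval (Encodable.encode (k, σ))).Dom → σ ∈ W k)
    (hW : ∀ k, coin (cyl (W k)) ≤ (1 / 2 : ℝ≥0∞) ^ k) (k n : ℕ) :
    (G c k n + (nw c k n).length) * 2 ^ k ≤ 2 ^ n := by
  have h1 : {Z : ℕ → Bool | ∃ m < n + 1, New c k (seg Z m)} ⊆ cyl (W k) := by
    rintro Z ⟨m, -, hm⟩
    obtain ⟨j, hj, h⟩ := hm.1
    rw [length_seg] at hj
    refine ⟨j, hc k _ ?_⟩
    obtain ⟨x, hx⟩ := Option.isSome_iff_exists.1 h
    rw [take_seg Z (by omega : j ≤ m)] at hx
    exact Part.dom_iff_mem.2 ⟨x, Code.evaln_sound hx⟩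
  have h2 : ((G c k (n + 1) : ℕ) : ℝ≥0∞) * (1 / 2 : ℝ≥0∞) ^ (n + 1) ≤ (1 / 2 : ℝ≥0∞) ^ k := by
    rw [← coin_G]
    exact (measure_mono h1).trans (hW k)
  have h3 : ∀ m : ℕ, (1 / 2 : ℝ≥0∞) ^ m * 2 ^ m = 1 := by
    intro m
    rw [← mul_pow, one_div, ENNReal.inv_mul_cancel (by norm_num) (by norm_num), one_pow]
  have h4 : ((G c k (n + 1) * 2 ^ k : ℕ) : ℝ≥0∞) ≤ ((2 ^ (n + 1) : ℕ) : ℝ≥0∞) := by
    push_cast
    calc ((G c k (n + 1) : ℕ) : ℝ≥0∞) * 2 ^ k =
        (G c k (n + 1) : ℕ) * ((1 / 2 : ℝ≥0∞) ^ (n + 1) * 2 ^ (n + 1)) * 2 ^ k := by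
          rw [h3, mul_one]
      _ = ((G c k (n + 1) : ℕ) : ℝ≥0∞) * (1 / 2 : ℝ≥0∞) ^ (n + 1) * (2 ^ (n + 1) * 2 ^ k) := by
          ring
      _ ≤ (1 / 2 : ℝ≥0∞) ^ k * (2 ^ (n + 1) * 2 ^ k) := by gcongr
      _ = (1 / 2 : ℝ≥0∞) ^ k * 2 ^ k * 2 ^ (n + 1) := by ring
      _ = 2 ^ (n + 1) := by rw [h3, one_mul]
  have h5 : G c k (n + 1) * 2 ^ k ≤ 2 ^ (n + 1) := by exact_mod_cast h4
  rw [G, pow_succ] at h5
  have h6 : 2 * (G c k n + (nw c k n).length) * 2 ^ k =
      2 * ((G c k n + (nw c k n).length) * 2 ^ k) := by ring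
  rw [h6] at h5
  omega

/-- the minimal strings of the level `2 k` have short programs -/
theorem comp_mach {W : ℕ → Set (List Bool)} {c : Code}
    (hc : ∀ k σ, (c.eval (Encodable.encode (k, σ))).Dom → σ ∈ W k)
    (hW : ∀ k, coin (cyl (W k)) ≤ (1 / 2 : ℝ≥0∞) ^ k) {k : ℕ} {σ : List Bool}
    (hσ : New c (2 * k) σ) :
    comp (fun q => (mach c q : Part (List Bool))) σ + k ≤ (σ.length + 1 : ℕ) := by
  have h1 := G_bound hc hW (2 * k) σ.length
  have h2 : σ ∈ nw c (2 * k) σ.length := mem_nw.2 ⟨rfl, hσ⟩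
  obtain ⟨i, hi, hσi⟩ := List.mem_iff_getElem.1 h2
  have h3 : (G c (2 * k) σ.length + i + 1) * 2 ^ (2 * k) ≤ 2 ^ σ.length :=
    (Nat.mul_le_mul_right _ (by omega)).trans h1
  have h4 : 2 * k ≤ σ.length := by
    by_contra hlt
    push Not at hlt
    have h5 : 2 ^ σ.length < 2 ^ (2 * k) := Nat.pow_lt_pow_right (by norm_num) hlt
    have h6 : 1 * 2 ^ (2 * k) ≤ (G c (2 * k) σ.length + i + 1) * 2 ^ (2 * k) :=
      Nat.mul_le_mul_right _ (by omega)
    omega
  have h7 : G c (2 * k) σ.length + i < 2 ^ (σ.length - 2 * k) := by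
    have h8 : 2 ^ σ.length = 2 ^ (σ.length - 2 * k) * 2 ^ (2 * k) := by
      rw [← pow_add]
      congr 1
      omega
    rw [h8] at h3
    have h9 := Nat.le_of_mul_le_mul_right h3 (by positivity)
    omega
  set r := toStr (σ.length - 2 * k) (G c (2 * k) σ.length + i) with hr
  have hrl : r.length = σ.length - 2 * k := length_toStr _ _
  have hrv : val r = G c (2 * k) σ.length + i := val_toStr h7
  set q := List.replicate k true ++ false :: r with hq
  have hidx : q.idxOf false = k := by
    rw [hq, List.idxOf_append_of_notMem (by simp)]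
    simp
  have hdrop : q.drop (k + 1) = r := by
    rw [hq, List.drop_append]
    simp
  have hql : q.length = k + 1 + (σ.length - 2 * k) := by
    rw [hq]
    simp [hrl]
    omega
  have hM : mach c q = some σ := by
    unfold mach
    rw [hidx, hdrop, hrl, hrv, show σ.length - 2 * k + 2 * k = σ.length by omega,
      if_pos ⟨by rw [hql]; omega, by omega⟩, Nat.add_sub_cancel_left]
    exact List.getElem?_eq_some_iff.2 ⟨hi, hσi⟩
  have h10 : comp (fun q => (mach c q : Part (List Bool))) σ ≤ q.length := by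
    refine comp_le (M := fun q => (mach c q : Part (List Bool))) ?_
    rw [hM]
    simp
  calc comp (fun q => (mach c q : Part (List Bool))) σ + k ≤ (q.length : ℕ∞) + k :=
        add_le_add_left h10 _
    _ = ((q.length + k : ℕ) : ℕ∞) := by push_cast; rfl
    _ = ((σ.length + 1 : ℕ) : ℕ∞) := by
        congr 1
        rw [hql]
        omega

/-- a code of the test -/
theorem exists_code_test {W : ℕ → Set (List Bool)}
    (h : REPred fun p : ℕ × List Bool => p.2 ∈ W p.1) :
    ∃ c : Code, ∀ k σ, (c.eval (Encodable.encode (k, σ))).Dom ↔ σ ∈ W k := by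
  obtain ⟨c, hc⟩ := Code.exists_code.1 h
  refine ⟨c, fun k σ => ?_⟩
  rw [hc]
  simp [Part.assert]

/-- Levin and Schnorr, second part -/
theorem random_of_complex {V : List Bool →. List Bool} (hV : OptimalPrefixFree V)
    {Z : ℕ → Bool} {d : ℕ} (hd : ∀ n : ℕ, (n : ℕ∞) ≤ comp V (seg Z n) + d) : MLRandom Z := by
  intro W hW
  obtain ⟨c, hc⟩ := exists_code_test hW.re
  have hM : Partrec fun q => (mach c q : Part (List Bool)) :=
    Computable.ofOption (machP c).to_comp
  obtain ⟨b, hb⟩ := hV.2 _ hM (mach_free c)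
  refine ⟨2 * (b + d + 2), ?_⟩
  rintro ⟨n, hn⟩
  set k := b + d + 2 with hk
  -- some initial segment is hit
  have h1 : ∃ m, Hit c (2 * k) (seg Z m) := by
    obtain ⟨x, hx⟩ := Part.dom_iff_mem.1 ((hc (2 * k) (seg Z n)).2 hn)
    obtain ⟨s, hs⟩ := Code.evaln_complete.1 hx
    refine ⟨max s n, n, ?_, ?_⟩
    · rw [length_seg]
      have := le_max_right s n
      omega
    · rw [length_seg, take_seg Z (le_max_right s n)]
      have h2 := Code.evaln_mono (le_max_left s n) hs
      rw [Option.mem_def] at h2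
      rw [h2]
      rfl
  classical
  have h3 : New c (2 * k) (seg Z (Nat.find h1)) := by
    refine ⟨Nat.find_spec h1, fun i hi => ?_⟩
    rw [length_seg] at hi
    rw [take_seg Z hi.le]
    exact Nat.find_min h1 hi
  set m := Nat.find h1 with hm
  have h4 := comp_mach (fun k σ => (hc k σ).1) hW.small h3
  rw [length_seg] at h4
  have h5 := hb (seg Z m)
  have h6 := hd m
  have h7 : comp (fun q => (mach c q : Part (List Bool))) (seg Z m) ≠ ⊤ := by
    intro h
    rw [h, top_add] at h4
    exact absurd h4 (by simp)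
  obtain ⟨x, hx⟩ := ENat.ne_top_iff_exists.1 h7
  rw [← hx] at h4 h5
  have h8 : (m : ℕ∞) ≤ ((x + b + d : ℕ) : ℕ∞) := by
    refine h6.trans ?_
    push_cast
    exact add_le_add_left h5 _
  have h9 : x + k ≤ m + 1 := by exact_mod_cast h4
  have h10 : m ≤ x + b + d := by exact_mod_cast h8
  omega

end Helper14_UG
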